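import Mathlib

/-!
# An `ℓ_p`-isometric copy of an infinite planar set need not be planar

For every `p > 1`, `p ≠ 2` there is an infinite subset of the plane `x₃ = 0` which has an
`ℓ_p`-isometric copy contained in no plane.
-/

namespace Pool.Agent.Results.MP_04b39a_gt.NonPlanarCopy

open Set

/-- the `ℓ_p` norm on `ℝ³` -/
noncomputable def nrm (p : ℝ) (x : Fin 3 → ℝ) : ℝ :=
  (|x 0| ^ p + |x 1| ^ p + |x 2| ^ p) ^ (1 / p)

/-- the difference of the two coordinate functions -/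
noncomputable def g (p x : ℝ) : ℝ := |x| ^ p - |x - 1| ^ p

theorem conv {L x y z : ℝ} (hL : L ≠ 0) (hxy : x < y) (hyz : y < z) :
    (z - x) * Real.exp (L * y) < (z - y) * Real.exp (L * x) + (y - x) * Real.exp (L * z) := by
  have hzx : 0 < z - x := by linarith
  have ha : 0 < (z - y) / (z - x) := div_pos (by linarith) hzx
  have hb : 0 < (y - x) / (z - x) := div_pos (by linarith) hzx
  have hab : (z - y) / (z - x) + (y - x) / (z - x) = 1 := by field_simp; ring
  have hne : L * x ≠ L * z := by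
    intro h
    have := mul_left_cancel₀ hL h
    linarith
  have h := strictConvexOn_exp.2 (mem_univ (L * x)) (mem_univ (L * z)) hne ha hb hab
  simp only [smul_eq_mul] at h
  have e : (z - y) / (z - x) * (L * x) + (y - x) / (z - x) * (L * z) = L * y := by
    field_simp; ring
  rw [e] at h
  have h2 := mul_lt_mul_of_pos_left h hzx
  calc (z - x) * Real.exp (L * y) < _ := h2
    _ = _ := by field_simp

theorem key_ne {p : ℝ} (hp : 1 < p) (hp2 : p ≠ 2) :
    (3 / 4 : ℝ) ^ p - (1 / 4 : ℝ) ^ p ≠ 1 / 2 := by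
  intro h
  set A : ℝ := (4 / 3 : ℝ) ^ p with hA
  set B : ℝ := (1 / 3 : ℝ) ^ p with hB
  have hApos : 0 < A := by positivity
  have e1 : (3 / 4 : ℝ) ^ p * A = 1 := by
    rw [hA, ← Real.mul_rpow (by norm_num) (by norm_num)]; norm_num
  have e2 : (1 / 4 : ℝ) ^ p * A = B := by
    rw [hA, hB, ← Real.mul_rpow (by norm_num) (by norm_num)]; norm_num
  have hAB : A + 2 * B = 2 := by
    have : ((3 / 4 : ℝ) ^ p - (1 / 4 : ℝ) ^ p) * A = 1 / 2 * A := by rw [h]
    rw [sub_mul, e1, e2] at this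
    linarith
  set L₁ := Real.log (4 / 3) with hL₁
  set L₂ := Real.log (1 / 3) with hL₂
  have h1 : L₁ ≠ 0 := by
    rw [hL₁]; exact (Real.log_pos (by norm_num)).ne'
  have h2 : L₂ ≠ 0 := by
    rw [hL₂]; exact (Real.log_neg (by norm_num) (by norm_num)).ne
  have eA : Real.exp (L₁ * p) = A := by
    rw [hA, Real.rpow_def_of_pos (by norm_num)]
  have eB : Real.exp (L₂ * p) = B := by
    rw [hB, Real.rpow_def_of_pos (by norm_num)]
  have eA1 : Real.exp (L₁ * 1) = 4 / 3 := by
    rw [mul_one, hL₁, Real.exp_log (by norm_num)]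
  have eB1 : Real.exp (L₂ * 1) = 1 / 3 := by
    rw [mul_one, hL₂, Real.exp_log (by norm_num)]
  have eA2 : Real.exp (L₁ * 2) = 16 / 9 := by
    rw [mul_two, Real.exp_add, hL₁, Real.exp_log (by norm_num)]; norm_num
  have eB2 : Real.exp (L₂ * 2) = 1 / 9 := by
    rw [mul_two, Real.exp_add, hL₂, Real.exp_log (by norm_num)]; norm_num
  rcases lt_or_gt_of_ne hp2 with hlt | hgt
  · have a := conv h1 hp hlt
    have b := conv h2 hp hlt
    rw [eA, eA1, eA2] at a
    rw [eB, eB1, eB2] at b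
    nlinarith
  · have a := conv h1 (show (1 : ℝ) < 2 by norm_num) hgt
    have b := conv h2 (show (1 : ℝ) < 2 by norm_num) hgt
    rw [eA, eA1, eA2] at a
    rw [eB, eB1, eB2] at b
    nlinarith

theorem g_cont {p : ℝ} (hp : 1 < p) : Continuous (g p) := by
  unfold g
  exact (continuous_abs.rpow_const (fun _ => Or.inr (by linarith))).sub
    ((continuous_abs.comp (continuous_id.sub continuous_const)).rpow_const
      (fun _ => Or.inr (by linarith)))

theorem g_one {p : ℝ} (hp : 1 < p) : g p 1 = 1 := by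
  unfold g
  have : p ≠ 0 := by linarith
  simp [Real.zero_rpow this]

theorem g_half (p : ℝ) : g p (1 / 2) = 0 := by
  unfold g
  norm_num

theorem g_mono {p : ℝ} (hp : 1 < p) {x y : ℝ} (hx : 1 / 2 ≤ x) (hxy : x ≤ y) (hy : y ≤ 1) :
    g p x ≤ g p y := by
  unfold g
  have h0 : 0 ≤ p := by linarith
  have a : |x| ^ p ≤ |y| ^ p := by
    apply Real.rpow_le_rpow (abs_nonneg _) _ h0
    rw [abs_of_nonneg (by linarith), abs_of_nonneg (by linarith)]; exact hxy
  have b : |y - 1| ^ p ≤ |x - 1| ^ p := by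
    apply Real.rpow_le_rpow (abs_nonneg _) _ h0
    rw [abs_of_nonpos (by linarith), abs_of_nonpos (by linarith)]; linarith
  linarith

/-- points of the curve in the horizontal plane -/
def C (p : ℝ) : Set (Fin 3 → ℝ) :=
  {x | x 2 = 0 ∧ 1 / 2 ≤ x 0 ∧ g p (x 0) + g p (x 1) = 1}

theorem exists_on {p : ℝ} (hp : 1 < p) {a : ℝ} (ha : 1 / 2 ≤ a) (ha1 : a ≤ 1) :
    ∃ b, g p a + g p b = 1 := by
  have h0 : 0 ≤ g p a := by rw [← g_half p]; exact g_mono hp le_rfl ha ha1
  have h1 : g p a ≤ 1 := by rw [← g_one hp]; exact g_mono hp ha ha1 le_rfl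
  have := intermediate_value_Icc (show (1 / 2 : ℝ) ≤ 1 by norm_num) (g_cont hp).continuousOn
  rw [g_half, g_one hp] at this
  obtain ⟨b, -, hb⟩ := this (show 1 - g p a ∈ Icc 0 1 from ⟨by linarith, by linarith⟩)
  exact ⟨b, by rw [hb]; ring⟩

theorem C_inf {p : ℝ} (hp : 1 < p) : (C p).Infinite := by
  have : (Icc (1 / 2 : ℝ) 1) ⊆ (fun x : Fin 3 → ℝ => x 0) '' C p := by
    intro a ha
    obtain ⟨b, hb⟩ := exists_on hp ha.1 ha.2
    exact ⟨![a, b, 0], ⟨by simp, by simpa using ha.1, by simpa using hb⟩, by simp⟩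
  have h2 : (Icc (1 / 2 : ℝ) 1).Infinite := Icc_infinite (by norm_num)
  exact (h2.mono this).of_image _

open Classical in
/-- the map onto the copy -/
noncomputable def φ (x : Fin 3 → ℝ) : Fin 3 → ℝ := if x = 0 then ![1, 1, 1] else x

theorem dist0 {p : ℝ} {x : Fin 3 → ℝ} (hx : x ∈ C p) :
    nrm p (x - ![1, 1, 1]) = nrm p x := by
  obtain ⟨h2, -, h⟩ := hx
  unfold nrm
  congr 1
  simp only [Pi.sub_apply, Matrix.cons_val_zero, Matrix.cons_val_one, Matrix.cons_val]
  unfold g at h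
  rw [h2]
  by_cases hp0 : p = 0
  · subst hp0; simp
  · simp [Real.zero_rpow hp0]
    linarith

theorem nrm_neg (p : ℝ) (x : Fin 3 → ℝ) : nrm p (-x) = nrm p x := by
  unfold nrm; simp

theorem ne0 {p : ℝ} {x : Fin 3 → ℝ} (hx : x ∈ C p) : x ≠ 0 := by
  rintro rfl
  have := hx.2.1
  simp at this
  linarith

theorem result : ∀ p : ℝ, 1 < p → p ≠ 2 →
    ∃ (M : Set (Fin 3 → ℝ)) (φ : (Fin 3 → ℝ) → (Fin 3 → ℝ)),
      M.Infinite ∧ (∃ c : ℝ, ∀ x ∈ M, x 2 = c) ∧ InjOn φ M ∧
      (∀ x ∈ M, ∀ y ∈ M, nrm p (φ x - φ y) = nrm p (x - y)) ∧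
      ∀ P : AffineSubspace ℝ (Fin 3 → ℝ), Module.finrank ℝ P.direction = 2 →
        ¬ (φ '' M ⊆ (P : Set (Fin 3 → ℝ))) := by
  intro p hp hp2
  refine ⟨insert 0 (C p), φ, (C_inf hp).mono (subset_insert _ _), ⟨0, ?_⟩, ?_, ?_, ?_⟩
  · rintro x (rfl | hx)
    · rfl
    · exact hx.1
  · rintro x hx y hy hxy
    rcases hx with (rfl | hx) <;> rcases hy with (rfl | hy)
    · rfl
    · simp only [φ, if_true, if_neg (ne0 hy)] at hxy
      have := hy.1
      rw [← hxy] at this
      simp at this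
    · simp only [φ, if_true, if_neg (ne0 hx)] at hxy
      have := hx.1
      rw [hxy] at this
      simp at this
    · simpa only [φ, if_neg (ne0 hx), if_neg (ne0 hy)] using hxy
  · rintro x hx y hy
    rcases hx with (rfl | hx) <;> rcases hy with (rfl | hy)
    · simp
    · simp only [φ, if_true, if_neg (ne0 hy)]
      rw [zero_sub, nrm_neg, ← dist0 hy, ← nrm_neg, neg_sub]
    · simp only [φ, if_true, if_neg (ne0 hx)]
      rw [sub_zero, ← dist0 hx]
    · simp only [φ, if_neg (ne0 hx), if_neg (ne0 hy)]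
  · intro P hP hsub
    -- four points of the copy
    obtain ⟨m, hm, hgm⟩ : ∃ m ∈ Icc (1 / 2 : ℝ) 1, g p m = 1 / 2 := by
      have := intermediate_value_Icc (show (1 / 2 : ℝ) ≤ 1 by norm_num) (g_cont hp).continuousOn
      rw [g_half, g_one hp] at this
      exact this (show (1 / 2 : ℝ) ∈ Icc 0 1 from ⟨by norm_num, by norm_num⟩)
    have hm34 : m ≠ 3 / 4 := by
      rintro rfl
      apply key_ne hp hp2
      rw [← hgm]
      unfold g
      rw [abs_of_pos (by norm_num : (0 : ℝ) < 3 / 4),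
        show (3 / 4 - 1 : ℝ) = -(1 / 4) by norm_num, abs_neg, abs_of_pos (by norm_num : (0 : ℝ) < 1 / 4)]
    have hA : (![1, 1 / 2, 0] : Fin 3 → ℝ) ∈ C p := by
      refine ⟨by simp, by simp; norm_num, ?_⟩
      simp only [Matrix.cons_val_zero, Matrix.cons_val_one]
      rw [g_one hp, g_half]; norm_num
    have hB : (![1 / 2, 1, 0] : Fin 3 → ℝ) ∈ C p := by
      refine ⟨by simp, by simp, ?_⟩
      simp only [Matrix.cons_val_zero, Matrix.cons_val_one]
      rw [g_one hp, g_half]; norm_num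
    have hC : (![m, m, 0] : Fin 3 → ℝ) ∈ C p := by
      refine ⟨by simp, by simpa using hm.1, ?_⟩
      simp only [Matrix.cons_val_zero, Matrix.cons_val_one]
      rw [hgm]; norm_num
    have mem : ∀ x ∈ C p, x ∈ P := by
      intro x hx
      have h1 : φ x ∈ P := hsub ⟨x, Or.inr hx, rfl⟩
      have h2 : φ x = x := if_neg (ne0 hx)
      rwa [h2] at h1
    have memD : (![1, 1, 1] : Fin 3 → ℝ) ∈ P := by
      have h1 : φ 0 ∈ P := hsub ⟨0, Or.inl rfl, rfl⟩
      have h2 : φ 0 = ![1, 1, 1] := if_pos rfl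
      rwa [h2] at h1
    have d1 : (![1, 1 / 2, 0] - ![1 / 2, 1, 0] : Fin 3 → ℝ) ∈ P.direction :=
      AffineSubspace.vsub_mem_direction (mem _ hA) (mem _ hB)
    have d2 : (![m, m, 0] - ![1, 1 / 2, 0] : Fin 3 → ℝ) ∈ P.direction :=
      AffineSubspace.vsub_mem_direction (mem _ hC) (mem _ hA)
    have d3 : (![1, 1, 1] - ![1, 1 / 2, 0] : Fin 3 → ℝ) ∈ P.direction :=
      AffineSubspace.vsub_mem_direction memD (mem _ hA)
    have top : P.direction = ⊤ := by
      rw [eq_top_iff]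
      rintro v -
      have hk : 4 * m - 3 ≠ 0 := fun h => hm34 (by linarith)
      set c := v 2 with hc
      set b := 2 * (v 0 + v 1 - c / 2) / (4 * m - 3) with hb
      set a := 2 * (v 0 - b * (m - 1)) with ha
      have e : v = a • (![1, 1 / 2, 0] - ![1 / 2, 1, 0] : Fin 3 → ℝ) +
          b • (![m, m, 0] - ![1, 1 / 2, 0] : Fin 3 → ℝ) +
          c • (![1, 1, 1] - ![1, 1 / 2, 0] : Fin 3 → ℝ) := by
        have hb' : b * (4 * m - 3) = 2 * (v 0 + v 1 - c / 2) := by
          rw [hb]; field_simp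
        ext i
        fin_cases i
        · simp [ha]; ring
        · simp [ha]; linarith
        · simp [hc]
      rw [e]
      exact P.direction.add_mem (P.direction.add_mem (P.direction.smul_mem _ d1)
        (P.direction.smul_mem _ d2)) (P.direction.smul_mem _ d3)
    rw [top] at hP
    simp at hP

end Pool.Agent.Results.MP_04b39a_gt.NonPlanarCopy
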